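import Mathlib
import Pool.Agent.X317.Pro.Red

/-!
Signed digits, and the powers `x ^ (ℓ ^ b)` of an element `x` of order `N` dividing `ℓ ^ g + 1`.
-/

set_option autoImplicit false

open Polynomial Pool.Agent.X317.Pro

namespace Pool.Agent.X317.Tate

theorem digits_zero {ℓ : ℕ} : ∀ (g : ℕ) (c : Fin g → ℤ), (∀ a, |c a| < ℓ) →
    ∑ a, c a * (ℓ : ℤ) ^ (a : ℕ) = 0 → ∀ a, c a = 0 := by
  intro g
  induction g with
  | zero => intro c _ _ a; exact a.elim0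
  | succ g ih =>
    intro c hc h
    rw [Fin.sum_univ_succ] at h
    have h1 : ∑ a : Fin g, c a.succ * (ℓ : ℤ) ^ ((a.succ : Fin (g + 1)) : ℕ) =
        (ℓ : ℤ) * ∑ a : Fin g, c a.succ * (ℓ : ℤ) ^ (a : ℕ) := by
      rw [Finset.mul_sum]
      refine Finset.sum_congr rfl fun a _ => ?_
      rw [Fin.val_succ, pow_succ]
      ring
    rw [h1] at h
    simp only [Fin.val_zero, pow_zero, mul_one] at h
    have hℓ : (0 : ℤ) < ℓ := lt_of_le_of_lt (abs_nonneg _) (hc 0)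
    have h2 : c 0 = 0 := by
      refine Int.eq_zero_of_abs_lt_dvd (m := (ℓ : ℤ)) ?_ (hc 0)
      exact ⟨-∑ a : Fin g, c a.succ * (ℓ : ℤ) ^ (a : ℕ), by linarith⟩
    rw [h2, zero_add] at h
    have h3 := (mul_eq_zero.1 h).resolve_left hℓ.ne'
    have h4 := ih (fun a => c a.succ) (fun a => hc _) h3
    intro a
    refine Fin.cases h2 (fun a => h4 a) a

theorem digits {ℓ g n N : ℕ} (hℓ : 2 ≤ ℓ) (hN : N ∣ ℓ ^ g + 1)
    (hn : n * (ℓ ^ g - 1) < N * (ℓ - 1)) (c : Fin g → ℤ) (hc : ∀ a, |c a| ≤ n)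
    (h : (N : ℤ) ∣ ∑ a, c a * (ℓ : ℤ) ^ (a : ℕ)) : ∀ a, c a = 0 := by
  have hpow : 1 ≤ ℓ ^ g := Nat.one_le_pow _ _ (by omega)
  have hn' : (n : ℤ) * ((ℓ : ℤ) ^ g - 1) < N * ((ℓ : ℤ) - 1) := by
    have h1 : ((n * (ℓ ^ g - 1) : ℕ) : ℤ) < ((N * (ℓ - 1) : ℕ) : ℤ) := by exact_mod_cast hn
    push_cast [Nat.cast_sub hpow, Nat.cast_sub (show 1 ≤ ℓ by omega)] at h1
    exact h1
  have hgeom : ((ℓ : ℤ) - 1) * ∑ a : Fin g, (ℓ : ℤ) ^ (a : ℕ) = (ℓ : ℤ) ^ g - 1 := by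
    rw [Fin.sum_univ_eq_sum_range (fun a => (ℓ : ℤ) ^ a) g, mul_geom_sum]
  have hℓ' : (1 : ℤ) ≤ (ℓ : ℤ) - 1 := by
    have : (2 : ℤ) ≤ ℓ := by exact_mod_cast hℓ
    linarith
  have habs : |∑ a, c a * (ℓ : ℤ) ^ (a : ℕ)| ≤ n * ∑ a : Fin g, (ℓ : ℤ) ^ (a : ℕ) := by
    refine (Finset.abs_sum_le_sum_abs _ _).trans ?_
    rw [Finset.mul_sum]
    refine Finset.sum_le_sum fun a _ => ?_
    rw [abs_mul, abs_of_nonneg (by positivity : (0 : ℤ) ≤ (ℓ : ℤ) ^ (a : ℕ))]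
    exact mul_le_mul_of_nonneg_right (hc a) (by positivity)
  have hlt : |∑ a, c a * (ℓ : ℤ) ^ (a : ℕ)| < N := by
    have h1 : ((ℓ : ℤ) - 1) * |∑ a, c a * (ℓ : ℤ) ^ (a : ℕ)| < ((ℓ : ℤ) - 1) * N := by
      calc ((ℓ : ℤ) - 1) * |∑ a, c a * (ℓ : ℤ) ^ (a : ℕ)|
          ≤ ((ℓ : ℤ) - 1) * (n * ∑ a : Fin g, (ℓ : ℤ) ^ (a : ℕ)) :=
            mul_le_mul_of_nonneg_left habs (by linarith)
        _ = n * (((ℓ : ℤ) - 1) * ∑ a : Fin g, (ℓ : ℤ) ^ (a : ℕ)) := by ring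
        _ = n * ((ℓ : ℤ) ^ g - 1) := by rw [hgeom]
        _ < N * ((ℓ : ℤ) - 1) := hn'
        _ = ((ℓ : ℤ) - 1) * N := by ring
    exact lt_of_mul_lt_mul_left h1 (by linarith)
  have hsum := Int.eq_zero_of_abs_lt_dvd h hlt
  rcases Nat.lt_or_ge g 2 with hg | hg
  · interval_cases g
    · intro a; exact a.elim0
    · intro a
      rw [Fin.sum_univ_one] at hsum
      simp only [Fin.isValue, Fin.val_zero, pow_zero, mul_one] at hsum
      rw [Subsingleton.elim a 0]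
      exact hsum
  · refine digits_zero g c (fun a => ?_) hsum
    refine lt_of_le_of_lt (hc a) ?_
    by_contra hcon
    push Not at hcon
    have h1 : (N : ℤ) ≤ (ℓ : ℤ) ^ g + 1 := by
      exact_mod_cast Nat.le_of_dvd (Nat.succ_pos _) hN
    have h2 : (ℓ : ℤ) * ((ℓ : ℤ) ^ g - 1) ≤ n * ((ℓ : ℤ) ^ g - 1) := by
      refine mul_le_mul_of_nonneg_right hcon ?_
      have : (1 : ℤ) ≤ (ℓ : ℤ) ^ g := by exact_mod_cast hpow
      linarith
    have h3 : (N : ℤ) * ((ℓ : ℤ) - 1) ≤ ((ℓ : ℤ) ^ g + 1) * ((ℓ : ℤ) - 1) :=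
      mul_le_mul_of_nonneg_right h1 (by linarith)
    have h4 : (ℓ : ℤ) ^ 2 ≤ (ℓ : ℤ) ^ g := pow_le_pow_right₀ (by linarith) hg
    nlinarith

variable {F : Type*} [Field F] {ℓ g N : ℕ}

/-- the exponent of the power with number `b` -/
def ex (ℓ g b : ℕ) : ℤ := if b < g then (ℓ : ℤ) ^ b else -(ℓ : ℤ) ^ (b - g)

theorem pow_eq_zpow {x : F} (hx : x ^ (ℓ ^ g + 1) = 1) (b : ℕ) :
    x ^ ℓ ^ b = x ^ ex ℓ g b := by
  unfold ex
  split_ifs with h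
  · rw [← zpow_natCast]
    push_cast
    rfl
  · push Not at h
    have h1 : x ^ ℓ ^ g = x⁻¹ := by
      rw [pow_succ] at hx
      exact eq_inv_of_mul_eq_one_left hx
    have h2 : ℓ ^ b = ℓ ^ g * ℓ ^ (b - g) := by
      rw [← pow_add]
      congr 1
      omega
    rw [h2, pow_mul, h1, zpow_neg, inv_pow, ← zpow_natCast]
    push_cast
    rfl

/-- the powers are distinct -/
theorem distinct {n : ℕ} (hℓ : 2 ≤ ℓ) {x : F} (hx : orderOf x = N) (hN : N ∣ ℓ ^ g + 1)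
    (hN2 : 2 < N) (hn1 : 0 < n) (hn : n * (ℓ ^ g - 1) < N * (ℓ - 1)) {b b' : ℕ}
    (hb : b < 2 * g) (hb' : b' < 2 * g) (h : x ^ ℓ ^ b = x ^ ℓ ^ b') : b = b' := by
  have hx1 : x ^ (ℓ ^ g + 1) = 1 := by
    obtain ⟨c, hc⟩ := hN
    rw [hc, pow_mul, ← hx, pow_orderOf_eq_one, one_pow]
  have hx0 : x ≠ 0 := by
    rintro rfl
    rw [zero_pow (Nat.succ_ne_zero _)] at hx1
    exact zero_ne_one hx1
  rw [pow_eq_zpow hx1 b, pow_eq_zpow hx1 b'] at h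
  have h1 : x ^ (ex ℓ g b - ex ℓ g b') = 1 := by
    rw [zpow_sub₀ hx0, h, div_self (zpow_ne_zero _ hx0)]
  have h2 : (N : ℤ) ∣ ex ℓ g b - ex ℓ g b' := by
    rw [← hx]
    let u : Fˣ := Units.mk0 x hx0
    have hu : orderOf u = orderOf x := by
      rw [← orderOf_units]
      rfl
    rw [← hu, orderOf_dvd_iff_zpow_eq_one]
    apply Units.ext
    push_cast
    exact h1
  have hg : 0 < g := by omega
  by_contra hne
  -- the digits
  obtain ⟨a, σ, ha, hσ, hbe, hbb⟩ : ∃ (a : ℕ) (σ : ℤ), a < g ∧ (σ = 1 ∨ σ = -1) ∧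
      ex ℓ g b = σ * (ℓ : ℤ) ^ a ∧ (b = a ∧ σ = 1 ∨ b = a + g ∧ σ = -1) := by
    by_cases h3 : b < g
    · exact ⟨b, 1, h3, Or.inl rfl, by unfold ex; rw [if_pos h3, one_mul], Or.inl ⟨rfl, rfl⟩⟩
    · exact ⟨b - g, -1, by omega, Or.inr rfl, by unfold ex; rw [if_neg h3]; ring,
        Or.inr ⟨by omega, rfl⟩⟩
  obtain ⟨a', σ', ha', hσ', hbe', hbb'⟩ : ∃ (a : ℕ) (σ : ℤ), a < g ∧ (σ = 1 ∨ σ = -1) ∧
      ex ℓ g b' = σ * (ℓ : ℤ) ^ a ∧ (b' = a ∧ σ = 1 ∨ b' = a + g ∧ σ = -1) := by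
    by_cases h3 : b' < g
    · exact ⟨b', 1, h3, Or.inl rfl, by unfold ex; rw [if_pos h3, one_mul], Or.inl ⟨rfl, rfl⟩⟩
    · exact ⟨b' - g, -1, by omega, Or.inr rfl, by unfold ex; rw [if_neg h3]; ring,
        Or.inr ⟨by omega, rfl⟩⟩
  rw [hbe, hbe'] at h2
  by_cases haa : a = a'
  · subst haa
    have h3 : (N : ℤ) ∣ 2 * (ℓ : ℤ) ^ a := by
      rcases hbb with ⟨h4, h5⟩ | ⟨h4, h5⟩ <;> rcases hbb' with ⟨h6, h7⟩ | ⟨h6, h7⟩
      · omega
      · rw [h5, h7] at h2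
        have h8 : (1 : ℤ) * (ℓ : ℤ) ^ a - -1 * (ℓ : ℤ) ^ a = 2 * (ℓ : ℤ) ^ a := by ring
        rwa [h8] at h2
      · rw [h5, h7] at h2
        have h8 : (-1 : ℤ) * (ℓ : ℤ) ^ a - 1 * (ℓ : ℤ) ^ a = -(2 * (ℓ : ℤ) ^ a) := by ring
        rw [h8] at h2
        exact (dvd_neg.1 h2)
      · omega
    have h4 : N ∣ 2 * ℓ ^ a := by exact_mod_cast h3
    have h5 : Nat.Coprime N (ℓ ^ a) := by
      refine Nat.Coprime.pow_right a ?_
      refine Nat.Coprime.coprime_dvd_left hN ?_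
      have h6 : Nat.Coprime (1 + ℓ ^ g) ℓ := by
        obtain ⟨g', rfl⟩ : ∃ g', g = g' + 1 := ⟨g - 1, by omega⟩
        rw [pow_succ]
        exact (Nat.coprime_add_mul_right_left 1 ℓ (ℓ ^ g')).2 (Nat.coprime_one_left ℓ)
      rwa [add_comm] at h6
    have h6 := Nat.le_of_dvd two_pos (h5.dvd_of_dvd_mul_right h4)
    omega
  · -- different digits
    let c : Fin g → ℤ := fun k => (if (k : ℕ) = a then σ else 0) - (if (k : ℕ) = a' then σ' else 0)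
    have hc : ∀ k, |c k| ≤ n := by
      intro k
      have h3 : |c k| ≤ 1 := by
        simp only [c]
        by_cases hk : (k : ℕ) = a
        · have hk' : ¬ (k : ℕ) = a' := fun h => haa (hk.symm.trans h)
          rw [if_pos hk, if_neg hk', sub_zero]
          rcases hσ with h | h <;> rw [h] <;> simp
        · by_cases hk' : (k : ℕ) = a'
          · rw [if_neg hk, if_pos hk', zero_sub, abs_neg]
            rcases hσ' with h | h <;> rw [h] <;> simp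
          · rw [if_neg hk, if_neg hk', sub_zero]
            simp
      have h4 : (1 : ℤ) ≤ n := by exact_mod_cast hn1
      exact h3.trans h4
    have hone : ∀ (a₀ : ℕ) (s : ℤ), a₀ < g →
        ∑ k : Fin g, (if (k : ℕ) = a₀ then s else 0) * (ℓ : ℤ) ^ (k : ℕ) = s * (ℓ : ℤ) ^ a₀ := by
      intro a₀ s h₀
      rw [Finset.sum_eq_single (⟨a₀, h₀⟩ : Fin g)]
      · simp
      · intro k _ hk
        have : ¬ (k : ℕ) = a₀ := fun h => hk (Fin.ext h)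
        rw [if_neg this, zero_mul]
      · intro h; exact absurd (Finset.mem_univ _) h
    have hs : ∑ k, c k * (ℓ : ℤ) ^ (k : ℕ) = σ * (ℓ : ℤ) ^ a - σ' * (ℓ : ℤ) ^ a' := by
      simp only [c, sub_mul]
      rw [Finset.sum_sub_distrib, hone a σ ha, hone a' σ' ha']
    have h3 := digits hℓ hN hn c hc (by rw [hs]; exact h2) ⟨a, ha⟩
    have h4 : ¬ (a : ℕ) = a' := haa
    simp only [c, if_true, if_neg h4, sub_zero] at h3
    rcases hσ with h | h <;> omega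

end Pool.Agent.X317.Tate
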