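import Mathlib
import Pool.Agent.X317.Tate.Digits

/-!
A product of the powers `x r ^ (ℓ ^ b)` which is one is a product of pairs.
-/

set_option autoImplicit false
set_option linter.all false

open Finset

namespace Pool.Agent.X317.Tate

variable {R : Type} [Fintype R] [DecidableEq R]

/-- the labels of the zeros: the number `r` of the factor and the exponent `b` -/
abbrev Lab (g : R → ℕ) : Type := Σ r : R, Fin (2 * g r)

/-- the label of the conjugate zero -/
def tau {g : R → ℕ} (z : Lab g) : Lab g :=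
  ⟨z.1, if h : (z.2 : ℕ) < g z.1 then ⟨z.2 + g z.1, by omega⟩
    else ⟨z.2 - g z.1, by have := z.2.2; omega⟩⟩

theorem tau_low {g : R → ℕ} (r : R) (a : Fin (2 * g r)) (h : (a : ℕ) < g r) :
    tau (⟨r, a⟩ : Lab g) = ⟨r, ⟨a + g r, by omega⟩⟩ := by
  unfold tau
  simp only
  rw [dif_pos h]

theorem tau_high {g : R → ℕ} (r : R) (a : Fin (2 * g r)) (h : ¬ (a : ℕ) < g r) :
    tau (⟨r, a⟩ : Lab g) = ⟨r, ⟨a - g r, by have := a.2; omega⟩⟩ := by
  unfold tau
  simp only
  rw [dif_neg h]

theorem tau_tau {g : R → ℕ} (z : Lab g) : tau (tau z) = z := by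
  obtain ⟨r, b⟩ := z
  by_cases h : (b : ℕ) < g r
  · rw [tau_low r b h, tau_high r _ (by simp)]
    simp
  · rw [tau_high r b h, tau_low r _ (by have := b.2; simp only; omega)]
    have h2 : (b : ℕ) - g r + g r = b := by omega
    simp [h2]

theorem tau_ne {g : R → ℕ} (z : Lab g) : tau z ≠ z := by
  obtain ⟨r, b⟩ := z
  intro h
  by_cases hb : (b : ℕ) < g r
  · rw [tau_low r b hb] at h
    have h1 := congrArg (fun z : Lab g => (z.2 : ℕ)) h
    simp only at h1
    omega
  · rw [tau_high r b hb] at h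
    have h1 := congrArg (fun z : Lab g => (z.2 : ℕ)) h
    simp only at h1
    have := b.2
    omega

variable {F : Type*} [Field F] {ℓ : ℕ}

theorem prod_zpow_eq {J : Type*} (x : F) (hx : x ≠ 0) (S : Finset J) (e : J → ℤ) :
    ∏ j ∈ S, x ^ e j = x ^ ∑ j ∈ S, e j := by
  classical
  induction S using Finset.induction_on with
  | empty => simp
  | insert a s ha ih => rw [Finset.prod_insert ha, Finset.sum_insert ha, zpow_add₀ hx, ih]

theorem balanced (hℓ : 2 ≤ ℓ) (g n N : R → ℕ) (x : R → F) (hx : ∀ r, orderOf (x r) = N r)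
    (hN : ∀ r, N r ∣ ℓ ^ g r + 1) (hn : ∀ r, n r * (ℓ ^ g r - 1) < N r * (ℓ - 1))
    (hcop : ∀ r r', r ≠ r' → Nat.Coprime (N r) (N r')) (M : ℕ)
    (hM : ∀ r, Nat.Coprime (N r) M) (y : F) (hy : y ^ M = 1) {J : Type*} (S : Finset J)
    (lab : J → Lab g) (hcount : ∀ z, (S.filter (fun j => lab j = z)).card ≤ n z.1)
    (hprod : (∏ j ∈ S, x (lab j).1 ^ ℓ ^ ((lab j).2 : ℕ)) * y = 1) (z : Lab g) :
    (S.filter (fun j => lab j = z)).card = (S.filter (fun j => lab j = tau z)).card := by
  classical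
  have hx1 : ∀ r, x r ^ (ℓ ^ g r + 1) = 1 := by
    intro r
    obtain ⟨c, hc⟩ := hN r
    rw [hc, pow_mul, ← hx, pow_orderOf_eq_one, one_pow]
  have hx0 : ∀ r, x r ≠ 0 := by
    intro r h
    have h1 := hx1 r
    rw [h, zero_pow (Nat.succ_ne_zero _)] at h1
    exact zero_ne_one h1
  -- the components
  set Y : R → F := fun r => ∏ j ∈ S.filter (fun j => (lab j).1 = r),
    x (lab j).1 ^ ℓ ^ ((lab j).2 : ℕ) with hY
  have hYp : (∏ r, Y r) * y = 1 := by
    rw [hY, Finset.prod_fiberwise S (fun j => (lab j).1)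
      (fun j => x (lab j).1 ^ ℓ ^ ((lab j).2 : ℕ))]
    exact hprod
  have hYN : ∀ r, Y r ^ N r = 1 := by
    intro r
    rw [hY]
    simp only
    rw [← Finset.prod_pow]
    refine Finset.prod_eq_one fun j hj => ?_
    rw [Finset.mem_filter] at hj
    have hxj : x (lab j).1 = x r := congrArg x hj.2
    rw [hxj, ← pow_mul, mul_comm, pow_mul, ← hx, pow_orderOf_eq_one, one_pow]
  have hY1 : ∀ r, Y r = 1 := by
    intro r
    set P := M * ∏ r' ∈ univ.erase r, N r' with hP
    have h1 : Nat.Coprime (N r) P := by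
      refine Nat.Coprime.mul_right (hM r) ?_
      refine Nat.Coprime.prod_right fun r' hr' => ?_
      rw [Finset.mem_erase] at hr'
      exact hcop r r' hr'.1.symm
    have h2 : Y r ^ P = 1 := by
      have h3 := congrArg (fun z => z ^ P) hYp
      simp only [one_pow, mul_pow] at h3
      have h4 : y ^ P = 1 := by rw [hP, pow_mul, hy, one_pow]
      rw [h4, mul_one, ← Finset.mul_prod_erase univ Y (Finset.mem_univ r), mul_pow,
        ← Finset.prod_pow (univ.erase r) P Y] at h3
      have h5 : ∏ r' ∈ univ.erase r, Y r' ^ P = 1 := by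
        refine Finset.prod_eq_one fun r' hr' => ?_
        have h6 : N r' ∣ P := (Finset.dvd_prod_of_mem N hr').trans (Dvd.intro_left _ rfl)
        obtain ⟨c, hc⟩ := h6
        rw [hc, pow_mul, hYN, one_pow]
      rwa [h5, mul_one] at h3
    have h3 : orderOf (Y r) ∣ 1 := by
      rw [← Nat.Coprime.gcd_eq_one h1]
      exact Nat.dvd_gcd (orderOf_dvd_of_pow_eq_one (hYN r)) (orderOf_dvd_of_pow_eq_one h2)
    exact orderOf_eq_one_iff.1 (Nat.dvd_one.1 h3)
  -- the digits
  have key : ∀ (r : R) (a : ℕ) (ha : a < g r),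
      (S.filter (fun j => lab j = ⟨r, ⟨a, by omega⟩⟩)).card =
        (S.filter (fun j => lab j = ⟨r, ⟨a + g r, by omega⟩⟩)).card := by
    intro r
    let c : Fin (g r) → ℤ := fun a =>
      ((S.filter (fun j => lab j = ⟨r, ⟨a, by omega⟩⟩)).card : ℤ) -
        ((S.filter (fun j => lab j = ⟨r, ⟨a + g r, by omega⟩⟩)).card : ℤ)
    have hc : ∀ a, |c a| ≤ n r := by
      intro a
      have h1 := hcount ⟨r, ⟨a, by omega⟩⟩
      have h2 := hcount ⟨r, ⟨a + g r, by omega⟩⟩
      have h1' : ((S.filter (fun j => lab j = ⟨r, ⟨a, by omega⟩⟩)).card : ℤ) ≤ n r := by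
        exact_mod_cast h1
      have h2' : ((S.filter (fun j => lab j = ⟨r, ⟨a + g r, by omega⟩⟩)).card : ℤ) ≤ n r := by
        exact_mod_cast h2
      have h3 : (0 : ℤ) ≤ (S.filter (fun j => lab j = ⟨r, ⟨a, by omega⟩⟩)).card :=
        Int.natCast_nonneg _
      have h4 : (0 : ℤ) ≤ (S.filter (fun j => lab j = ⟨r, ⟨a + g r, by omega⟩⟩)).card :=
        Int.natCast_nonneg _
      simp only [c]
      rw [abs_le]
      constructor <;> linarith
    have hsum : ∑ j ∈ S.filter (fun j => (lab j).1 = r), ex ℓ (g r) ((lab j).2 : ℕ) =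
        ∑ a, c a * (ℓ : ℤ) ^ (a : ℕ) := by
      have h1 : ∑ j ∈ S.filter (fun j => (lab j).1 = r), ex ℓ (g r) ((lab j).2 : ℕ) =
          ∑ b ∈ range (2 * g r), ((S.filter (fun j => (lab j).1 = r ∧
            ((lab j).2 : ℕ) = b)).card : ℤ) * ex ℓ (g r) b := by
        have hmap : ∀ j ∈ S.filter (fun j => (lab j).1 = r), ((lab j).2 : ℕ) ∈
            range (2 * g r) := by
          intro j hj
          rw [Finset.mem_filter] at hj
          rw [Finset.mem_range, ← hj.2]
          exact (lab j).2.2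
        rw [← Finset.sum_fiberwise_of_maps_to hmap]
        refine Finset.sum_congr rfl fun b _ => ?_
        rw [Finset.filter_filter, Finset.sum_congr rfl (g := fun _ => ex ℓ (g r) b)
          (fun j hj => by rw [(Finset.mem_filter.1 hj).2.2]), Finset.sum_const, nsmul_eq_mul]
      have h2 : ∀ b (hb : b < 2 * g r), S.filter (fun j => (lab j).1 = r ∧
          ((lab j).2 : ℕ) = b) = S.filter (fun j => lab j = ⟨r, ⟨b, hb⟩⟩) := by
        intro b hb
        refine Finset.filter_congr fun j _ => ?_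
        constructor
        · rintro ⟨h3, h4⟩
          obtain ⟨r', b', hb'⟩ : ∃ (r' : R) (b' : Fin (2 * g r')), lab j = ⟨r', b'⟩ :=
            ⟨_, _, rfl⟩
          rw [hb'] at h3 h4 ⊢
          simp only at h3 h4
          subst h3
          congr 1
          exact Fin.ext h4
        · intro h3
          rw [h3]
          exact ⟨rfl, rfl⟩
      rw [h1, two_mul, Finset.range_eq_Ico, ← Finset.sum_Ico_consecutive _ (Nat.zero_le (g r))
        (Nat.le_add_right (g r) (g r)), Finset.sum_Ico_eq_sum_range, Finset.sum_Ico_eq_sum_range]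
      simp only [Nat.sub_zero, Nat.add_sub_cancel, zero_add]
      rw [← Finset.sum_add_distrib, ← Fin.sum_univ_eq_sum_range (fun a =>
        ((S.filter (fun j => (lab j).1 = r ∧ ((lab j).2 : ℕ) = a)).card : ℤ) * ex ℓ (g r) a +
        ((S.filter (fun j => (lab j).1 = r ∧ ((lab j).2 : ℕ) = g r + a)).card : ℤ) *
          ex ℓ (g r) (g r + a)) (g r)]
      refine Finset.sum_congr rfl fun a _ => ?_
      rw [h2 a (by omega), h2 (g r + a) (by omega)]
      have h3 : ex ℓ (g r) (a : ℕ) = (ℓ : ℤ) ^ (a : ℕ) := by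
        unfold ex
        rw [if_pos a.2]
      have h4 : ex ℓ (g r) (g r + (a : ℕ)) = -(ℓ : ℤ) ^ (a : ℕ) := by
        unfold ex
        rw [if_neg (by omega), Nat.add_sub_cancel_left]
      rw [h3, h4]
      simp only [c]
      have h5 : (⟨g r + (a : ℕ), by omega⟩ : Fin (2 * g r)) = ⟨(a : ℕ) + g r, by omega⟩ :=
        Fin.ext (Nat.add_comm _ _)
      rw [h5]
      ring
    have hdvd : (N r : ℤ) ∣ ∑ a, c a * (ℓ : ℤ) ^ (a : ℕ) := by
      rw [← hsum]
      have h1 : x r ^ (∑ j ∈ S.filter (fun j => (lab j).1 = r),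
          ex ℓ (g r) ((lab j).2 : ℕ)) = 1 := by
        rw [← prod_zpow_eq _ (hx0 r), ← hY1 r, hY]
        refine Finset.prod_congr rfl fun j hj => ?_
        have hj' := (Finset.mem_filter.1 hj).2
        have hxj : x (lab j).1 = x r := congrArg x hj'
        rw [← pow_eq_zpow (hx1 r), hxj]
      let u : Fˣ := Units.mk0 (x r) (hx0 r)
      have hu : orderOf u = N r := by
        rw [← hx r, ← orderOf_units]
        rfl
      rw [← hu, orderOf_dvd_iff_zpow_eq_one]
      apply Units.ext
      push_cast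
      exact h1
    have hzero := digits hℓ (hN r) (hn r) c hc hdvd
    intro a ha
    have h1 := hzero ⟨a, ha⟩
    simp only [c] at h1
    omega
  obtain ⟨r, b⟩ := z
  by_cases hb : (b : ℕ) < g r
  · rw [tau_low r b hb]
    exact key r b hb
  · rw [tau_high r b hb]
    have h1 := key r (b - g r) (by have := b.2; omega)
    have h2 : (⟨(b : ℕ) - g r + g r, by have := b.2; omega⟩ : Fin (2 * g r)) = b :=
      Fin.ext (by simp only; omega)
    rw [h2] at h1
    exact h1.symm

end Pool.Agent.X317.Tate
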