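import Mathlib
import Pool.Agent.X317.Tate.Digits

/-!
The zeros of an integral polynomial which has modulo `ℓ` a zero of order `N` dividing `ℓ ^ g + 1`.
-/

set_option autoImplicit false

open Polynomial Pool.Agent.X317.Pro

namespace Pool.Agent.X317.Tate

theorem card_fibre {α γ : Type*} [DecidableEq γ] [Fintype α] (F : α → γ) (c : γ) :
    Fintype.card {a // F a = c} = Multiset.count c (Multiset.map F Finset.univ.val) := by
  rw [Multiset.count_map, Fintype.card_subtype, Finset.card_def, Finset.filter_val]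
  congr 1
  refine Multiset.filter_congr fun a _ => ?_
  exact ⟨Eq.symm, Eq.symm⟩

/-- equal families up to a bijection -/
theorem exists_equiv_of_map {α β γ : Type*} [Fintype α] [Fintype β] (f : α → γ) (g : β → γ)
    (h : Multiset.map f Finset.univ.val = Multiset.map g Finset.univ.val) :
    ∃ σ : α ≃ β, ∀ a, f a = g (σ a) := by
  classical
  have he : ∀ c : γ, Nonempty ({a // f a = c} ≃ {a // g a = c}) := fun c =>
    Fintype.card_eq.1 (by
      have h1 := card_fibre f c
      have h2 := card_fibre g c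
      rw [h] at h1
      convert h1.trans h2.symm)
  exact ⟨Equiv.ofFiberEquiv fun c => (he c).some, fun a => (Equiv.ofFiberEquiv_map _ a).symm⟩

/-- the zeros of a monic integral polynomial -/
theorem int_roots (f : ℤ[X]) (hf : f.Monic) {d : ℕ} (hd : f.natDegree = d) :
    ∃ a : Fin d → integralClosure ℤ ℂ, ∀ {R : Type} [CommRing R]
      (φ : integralClosure ℤ ℂ →+* R), f.map (Int.castRingHom R) = ∏ j, (X - C (φ (a j))) := by
  classical
  have hfm : (f.map (Int.castRingHom ℂ)).Monic := hf.map _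
  have hs := IsAlgClosed.splits (f.map (Int.castRingHom ℂ))
  have hcard : (f.map (Int.castRingHom ℂ)).roots.toList.length = d := by
    rw [Multiset.length_toList, ← hs.natDegree_eq_card_roots, hf.natDegree_map, hd]
  have hprod : f.map (Int.castRingHom ℂ) =
      ((f.map (Int.castRingHom ℂ)).roots.toList.map fun a => X - C a).prod := by
    conv_lhs => rw [hs.eq_prod_roots_of_monic hfm]
    conv_lhs => rw [← Multiset.coe_toList (f.map (Int.castRingHom ℂ)).roots]
    rw [Multiset.map_coe, Multiset.prod_coe]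
  obtain ⟨α, hα⟩ : ∃ α : Fin d → ℂ, f.map (Int.castRingHom ℂ) = ∏ j, (X - C (α j)) := by
    subst hcard
    refine ⟨fun j => (f.map (Int.castRingHom ℂ)).roots.toList.get j, ?_⟩
    conv_lhs => rw [hprod]
    rw [← List.prod_ofFn]
    congr 1
    conv_lhs => rw [← List.ofFn_get (f.map (Int.castRingHom ℂ)).roots.toList]
    rw [List.map_ofFn]
    rfl
  have hint : ∀ j, IsIntegral ℤ (α j) := by
    intro j
    refine ⟨f, hf, ?_⟩
    have h1 : (f.map (Int.castRingHom ℂ)).eval (α j) = 0 := by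
      rw [hα, eval_prod, Finset.prod_eq_zero (Finset.mem_univ j)]
      simp
    rw [eval_map] at h1
    exact h1
  refine ⟨fun j => ⟨α j, hint j⟩, ?_⟩
  intro R _ φ
  have h1 : f.map (Int.castRingHom (integralClosure ℤ ℂ)) =
      ∏ j, (X - C (⟨α j, hint j⟩ : integralClosure ℤ ℂ)) := by
    have hinj : Function.Injective (algebraMap (integralClosure ℤ ℂ) ℂ) :=
      Subtype.val_injective
    apply map_injective _ hinj
    rw [Polynomial.map_map, Polynomial.map_prod]
    have h2 : (algebraMap (integralClosure ℤ ℂ) ℂ).comp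
        (Int.castRingHom (integralClosure ℤ ℂ)) = Int.castRingHom ℂ := RingHom.ext_int _ _
    rw [h2, hα]
    refine Finset.prod_congr rfl fun j _ => ?_
    rw [Polynomial.map_sub, map_X, map_C]
    rfl
  have h3 := congrArg (Polynomial.map φ) h1
  rw [Polynomial.map_map, Polynomial.map_prod] at h3
  have h2 : φ.comp (Int.castRingHom (integralClosure ℤ ℂ)) = Int.castRingHom R :=
    RingHom.ext_int _ _
  rw [h2] at h3
  rw [h3]
  refine Finset.prod_congr rfl fun j _ => ?_
  rw [Polynomial.map_sub, map_X, map_C]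

theorem eval_map_ringHom {A B : Type*} [CommRing A] [CommRing B] (ψ : A →+* B) (z : A)
    (f : ℤ[X]) : (f.map (Int.castRingHom B)).eval (ψ z) =
      ψ ((f.map (Int.castRingHom A)).eval z) := by
  rw [eval_map, eval_map, hom_eval₂]
  congr 1
  exact (RingHom.ext_int _ _)

theorem aeval_eq {A : Type*} [CommRing A] [Algebra ℤ A] (z : A) (f : ℤ[X]) :
    aeval z f = (f.map (Int.castRingHom A)).eval z := by
  rw [eval_map, aeval_def]
  congr 1
  exact (RingHom.ext_int _ _)

variable {ℓ : ℕ} [hl : Fact ℓ.Prime]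

theorem eval_frob (f : ℤ[X]) (x : FBar ℓ) (hx : (f.map (Int.castRingHom (FBar ℓ))).eval x = 0)
    (b : ℕ) : (f.map (Int.castRingHom (FBar ℓ))).eval (x ^ ℓ ^ b) = 0 := by
  have i1 : CharP (FBar ℓ) ℓ := charP_of_injective_algebraMap (algebraMap (ZMod ℓ) (FBar ℓ)).injective ℓ
  induction b with
  | zero => simpa using hx
  | succ b ih =>
    have h1 := eval_map_ringHom (frobenius (FBar ℓ) ℓ) (x ^ ℓ ^ b) f
    rw [frobenius_def, ← pow_mul, ← pow_succ, ih, map_zero] at h1
    exact h1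

/-- **The zeros.** -/
theorem labels (φ : integralClosure ℤ ℂ →+* FBar ℓ) {q g n N : ℕ} (hq : (q : FBar ℓ) = 1)
    {f : ℤ[X]} (hf : f.Monic) (hdeg : f.natDegree = 2 * g)
    (hweil : ∀ α : ℂ, aeval α f = 0 → ‖α‖ ^ 2 = (q : ℝ))
    {x : FBar ℓ} (hx : orderOf x = N) (hfx : (f.map (Int.castRingHom (FBar ℓ))).eval x = 0)
    (hN : N ∣ ℓ ^ g + 1)
    (hN2 : 2 < N) (hn1 : 0 < n) (hn : n * (ℓ ^ g - 1) < N * (ℓ - 1)) :
    ∃ α : Fin (2 * g) → integralClosure ℤ ℂ,
      f.map (Int.castRingHom ℂ) = ∏ j, (X - C (α j : ℂ)) ∧ (∀ b, φ (α b) = x ^ ℓ ^ (b : ℕ)) ∧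
      ∀ b b' : Fin (2 * g), (b' : ℕ) = b + g → (α b : ℂ) * α b' = q := by
  classical
  obtain ⟨a, ha⟩ := int_roots f hf hdeg
  have hφ := ha φ
  have hℂ : f.map (Int.castRingHom ℂ) = ∏ j, (X - C (a j : ℂ)) :=
    ha (algebraMap (integralClosure ℤ ℂ) ℂ)
  have hℓ := hl.out.two_le
  have h1 : ∀ b : Fin (2 * g), ∃ j, φ (a j) = x ^ ℓ ^ (b : ℕ) := by
    intro b
    have h3 := eval_frob f x hfx b
    rw [hφ, eval_prod, Finset.prod_eq_zero_iff] at h3
    obtain ⟨j, -, hj⟩ := h3
    rw [eval_sub, eval_X, eval_C, sub_eq_zero] at hj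
    exact ⟨j, hj.symm⟩
  choose j hj using h1
  have hinj : Function.Injective j := by
    intro b b' h
    apply Fin.ext
    refine distinct (F := FBar ℓ) hℓ hx hN hN2 hn1 hn b.2 b'.2 ?_
    rw [← hj b, ← hj b', h]
  have hbij : Function.Bijective j := Finite.injective_iff_bijective.1 hinj
  refine ⟨fun b => a (j b), ?_, hj, ?_⟩
  · rw [hℂ]
    exact (Fintype.prod_bijective j hbij _ _ fun b => rfl).symm
  · intro b b' hbb
    have hroot : (f.map (Int.castRingHom ℂ)).eval (a (j b) : ℂ) = 0 := by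
      rw [hℂ, eval_prod, Finset.prod_eq_zero (Finset.mem_univ (j b))]
      simp
    have hconj : (f.map (Int.castRingHom ℂ)).eval ((starRingEnd ℂ) (a (j b) : ℂ)) = 0 := by
      rw [eval_map_ringHom, hroot, map_zero]
    obtain ⟨c, hc⟩ : ∃ c, (a (j c) : ℂ) = (starRingEnd ℂ) (a (j b) : ℂ) := by
      have h2 := hconj
      rw [hℂ, eval_prod, Finset.prod_eq_zero_iff] at h2
      obtain ⟨i, -, hi⟩ := h2
      obtain ⟨c, rfl⟩ := hbij.2 i
      rw [eval_sub, eval_X, eval_C, sub_eq_zero] at hi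
      exact ⟨c, hi.symm⟩
    have hmul : (a (j b) : ℂ) * (a (j c) : ℂ) = q := by
      rw [hc, Complex.mul_conj, Complex.normSq_eq_norm_sq, hweil _ (by rw [aeval_eq]; exact hroot)]
      push_cast
      rfl
    have hmul' : a (j b) * a (j c) = (q : integralClosure ℤ ℂ) := by
      apply Subtype.ext
      push_cast
      exact hmul
    have h2 := congrArg φ hmul'
    rw [map_mul, hj, hj, map_natCast, hq] at h2
    have hx1 : x ^ (ℓ ^ g + 1) = 1 := by
      obtain ⟨c, hc⟩ := hN
      rw [hc, pow_mul, ← hx, pow_orderOf_eq_one, one_pow]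
    have h3 : x ^ ℓ ^ (b : ℕ) * x ^ ℓ ^ (b' : ℕ) = 1 := by
      rw [hbb, ← pow_add]
      have h4 : ℓ ^ (b : ℕ) + ℓ ^ ((b : ℕ) + g) = (ℓ ^ g + 1) * ℓ ^ (b : ℕ) := by
        rw [pow_add]
        ring
      rw [h4, pow_mul, hx1, one_pow]
    have h5 : x ^ ℓ ^ (c : ℕ) = x ^ ℓ ^ (b' : ℕ) := by
      have h6 : x ^ ℓ ^ (b : ℕ) ≠ 0 := by
        intro h7
        rw [h7, zero_mul] at h3
        exact zero_ne_one h3
      exact mul_left_cancel₀ h6 (h2.trans h3.symm)
    have h6 : (c : ℕ) = b' :=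
      distinct (F := FBar ℓ) hℓ hx hN hN2 hn1 hn c.2 b'.2 h5
    have h7 : c = b' := Fin.ext h6
    rw [← h7]
    exact hmul

end Pool.Agent.X317.Tate
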