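import Mathlib
import Pool.Agent.X317.Iso.Abel
import Pool.Agent.H194R3.Weil.Ext

/-!
Products of eigenvectors in the exterior algebra, and coordinates in `(⋀ ^ k V) ⊗ W`.
-/

set_option autoImplicit false
set_option linter.all false

open Module TensorProduct ExteriorAlgebra Pool.Agent.X317.Iso

namespace Pool.Agent.X317.Tate

variable {V : Type} [AddCommGroup V] [Module ℂ V] {W : Type} [AddCommGroup W] [Module ℂ W]

/-- `d` is a Tate class in `H ^ 2` of an abelian variety with the Frobenius endomorphism `F` over the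
field with `q` elements: by the theorem of Tate, a linear combination of classes of divisors. -/
def IsDivisor (F : V →ₗ[ℂ] V) (q : ℂ) (d : EA V) : Prop :=
  d ∈ EA.pow V 2 ∧ EA.map F d = q • d

/-- The span of the products of `a` divisor classes. -/
noncomputable def divSpan (F : V →ₗ[ℂ] V) (q : ℂ) (a : ℕ) : Submodule ℂ (EA V) :=
  Submodule.span ℂ {t | ∃ Z : Fin a → EA V, (∀ l, IsDivisor F q (Z l)) ∧ t = (List.ofFn Z).prod}

/-- The span of the products of `a` divisor classes of the abelian variety and a class `w` of the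
other variety with `(G - c) ^ s w = 0`. -/
noncomputable def products (F : V →ₗ[ℂ] V) (G : W →ₗ[ℂ] W) (q : ℂ) (s a : ℕ) (c : ℂ) :
    Submodule ℂ (EA V ⊗[ℂ] W) :=
  Submodule.span ℂ {t | ∃ (Z : Fin a → EA V) (w : W), (∀ l, IsDivisor F q (Z l)) ∧
    ((G - c • LinearMap.id : W →ₗ[ℂ] W) ^ s) w = 0 ∧ t = (List.ofFn Z).prod ⊗ₜ[ℂ] w}

theorem mul_mem_divSpan (F : V →ₗ[ℂ] V) (q : ℂ) (a : ℕ) (d : EA V) (hd : IsDivisor F q d)
    (t : EA V) (ht : t ∈ divSpan F q a) : d * t ∈ divSpan F q (a + 1) := by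
  have h : divSpan F q a ≤ (divSpan F q (a + 1)).comap (Algebra.lmul ℂ (EA V) d) := by
    refine Submodule.span_le.2 ?_
    rintro _ ⟨Z, hZ, rfl⟩
    refine Submodule.subset_span ⟨Fin.cons d Z, ?_, ?_⟩
    · intro l
      refine Fin.cases ?_ (fun l => ?_) l
      · exact hd
      · exact hZ l
    · rw [List.ofFn_cons, List.prod_cons]
      rfl
  exact h ht

theorem tmul_mem_products (F : V →ₗ[ℂ] V) (G : W →ₗ[ℂ] W) (q : ℂ) (s a : ℕ) (c : ℂ) (w : W)
    (hw : ((G - c • LinearMap.id : W →ₗ[ℂ] W) ^ s) w = 0) (x : EA V) (hx : x ∈ divSpan F q a) :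
    x ⊗ₜ[ℂ] w ∈ products F G q s a c := by
  have h : divSpan F q a ≤ (products F G q s a c).comap ((TensorProduct.mk ℂ (EA V) W).flip w) := by
    refine Submodule.span_le.2 ?_
    rintro _ ⟨Z, hZ, rfl⟩
    exact Submodule.subset_span ⟨Z, w, hZ, hw, rfl⟩
  exact h hx

theorem isDivisor_pair (F : V →ₗ[ℂ] V) (q : ℂ) (v w : V) (α β : ℂ) (hv : F v = α • v)
    (hw : F w = β • w) (h : α * β = q) :
    IsDivisor F q (show EA V from (ExteriorAlgebra.ι ℂ v * ExteriorAlgebra.ι ℂ w)) := by
  refine ⟨?_, ?_⟩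
  · have h1 : ExteriorAlgebra.ι ℂ v * ExteriorAlgebra.ι ℂ w ∈ ⋀[ℂ]^2 V := by
      rw [exteriorPower, pow_two]
      exact Submodule.mul_mem_mul (LinearMap.mem_range_self _ _) (LinearMap.mem_range_self _ _)
    exact h1
  · have h1 : ExteriorAlgebra.map F (ExteriorAlgebra.ι ℂ v * ExteriorAlgebra.ι ℂ w) =
        q • (ExteriorAlgebra.ι ℂ v * ExteriorAlgebra.ι ℂ w) := by
      rw [map_mul, map_apply_ι, map_apply_ι, hv, hw, map_smul, map_smul, smul_mul_smul_comm, h]
    exact h1

/-- **Products of eigenvectors with conjugate labels.** -/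
theorem wedge {I Λ : Type*} [DecidableEq I] [DecidableEq Λ] (F : V →ₗ[ℂ] V) (e : I → V) (μ : I → ℂ)
    (hF : ∀ j, F (e j) = μ j • e j) (lab : I → Λ) (τ : Λ → Λ) (hτ : ∀ z, τ (τ z) = z)
    (hne : ∀ z, τ z ≠ z) (q : ℂ) (hpair : ∀ j j', lab j' = τ (lab j) → μ j * μ j' = q) :
    ∀ (k : ℕ) (L : List I), L.length = k →
      (∀ z, L.countP (fun j => lab j = z) = L.countP (fun j => lab j = τ z)) →
      ∃ a, k = 2 * a ∧ (L.map μ).prod = q ^ a ∧
        (show EA V from (L.map (fun j => ExteriorAlgebra.ι ℂ (e j))).prod) ∈ divSpan F q a := by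
  intro k
  induction k using Nat.strong_induction_on with
  | _ k ih =>
    intro L hlen hbal
    rcases L with _ | ⟨j, L'⟩
    · refine ⟨0, by simpa using hlen.symm, by simp, ?_⟩
      refine Submodule.subset_span ⟨Fin.elim0, fun l => l.elim0, ?_⟩
      simp only [List.map_nil, List.prod_nil, List.ofFn_zero]
      rfl
    · have h1 : 0 < (j :: L').countP (fun i => lab i = τ (lab j)) := by
        rw [← hbal (lab j), List.countP_pos_iff]
        exact ⟨j, List.mem_cons_self, by simp⟩
      rw [List.countP_pos_iff] at h1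
      obtain ⟨j', hj', hlab⟩ := h1
      simp only [decide_eq_true_eq] at hlab
      have hj'' : j' ∈ L' := by
        rcases List.mem_cons.1 hj' with h | h
        · exfalso
          rw [h] at hlab
          exact hne _ hlab.symm
        · exact h
      obtain ⟨L1, L2, hL'⟩ := List.append_of_mem hj''
      have hperm : (j :: L').Perm (j :: j' :: (L1 ++ L2)) := by
        rw [hL']
        exact List.Perm.cons j List.perm_middle
      have hlen2 : (L1 ++ L2).length + 2 = k := by
        rw [← hlen, hperm.length_eq]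
        simp
      obtain ⟨a, hka, hμ, hmem⟩ := ih (L1 ++ L2).length (by omega) (L1 ++ L2) rfl (by
        intro z
        have h2 := hbal z
        rw [hperm.countP_eq, hperm.countP_eq] at h2
        simp only [List.countP_cons, decide_eq_true_eq, hlab] at h2
        have h3 : (lab j = z) ↔ (τ (lab j) = τ z) :=
          ⟨fun h => by rw [h], fun h => by rw [← hτ (lab j), h, hτ]⟩
        have h4 : (τ (lab j) = z) ↔ (lab j = τ z) :=
          ⟨fun h => by rw [← h, hτ], fun h => by rw [h, hτ]⟩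
        simp only [h3, h4] at h2
        omega)
      refine ⟨a + 1, by omega, ?_, ?_⟩
      · rw [(hperm.map μ).prod_eq, List.map_cons, List.prod_cons, List.map_cons, List.prod_cons,
          hμ, ← mul_assoc, hpair j j' hlab, pow_succ']
      · obtain ⟨b, hb⟩ := Pool.Agent.H194R3.Weil.prod_perm (K := ℂ) (V := V) (X := I)
          (hperm.map (fun i => (e i, i)))
        rw [List.map_map, List.map_map] at hb
        have hb' : ((j :: L').map (fun i => ExteriorAlgebra.ι ℂ (e i))).prod =
            b • ((ExteriorAlgebra.ι ℂ (e j) * ExteriorAlgebra.ι ℂ (e j')) *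
              ((L1 ++ L2).map (fun i => ExteriorAlgebra.ι ℂ (e i))).prod) := by
          rw [mul_assoc]
          exact hb
        rw [hb']
        refine Submodule.smul_mem (divSpan F q (a + 1)) b ?_
        exact mul_mem_divSpan F q a _
          (isDivisor_pair F q _ _ _ _ (hF j) (hF j') (hpair j j' hlab)) _ hmem

/-- the coordinates in `(⋀ ^ k V) ⊗ W` -/
noncomputable def coordW {K : Type*} {U : Type*} [AddCommGroup U] [Module ℂ U] (B : Basis K ℂ U)
    (W : Type*) [AddCommGroup W] [Module ℂ W] (S : K) : U ⊗[ℂ] W →ₗ[ℂ] W :=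
  (TensorProduct.lid ℂ W).toLinearMap ∘ₗ TensorProduct.map (B.coord S) LinearMap.id

theorem coordW_tmul {K : Type*} {U : Type*} [AddCommGroup U] [Module ℂ U] (B : Basis K ℂ U)
    (S : K) (u : U) (w : W) : coordW B W S (u ⊗ₜ w) = B.coord S u • w := by
  rw [coordW, LinearMap.comp_apply, TensorProduct.map_tmul]
  simp

theorem sum_coordW {K : Type*} [Fintype K] {U : Type*} [AddCommGroup U] [Module ℂ U]
    (B : Basis K ℂ U) (t : U ⊗[ℂ] W) : t = ∑ S, B S ⊗ₜ[ℂ] coordW B W S t := by
  induction t with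
  | zero => simp
  | add x y hx hy =>
    conv_lhs => rw [hx, hy]
    rw [← Finset.sum_add_distrib]
    refine Finset.sum_congr rfl fun S _ => ?_
    rw [map_add, TensorProduct.tmul_add]
  | tmul u w =>
    have h1 : ∀ S, B S ⊗ₜ[ℂ] coordW B W S (u ⊗ₜ w) = (B.coord S u • B S) ⊗ₜ[ℂ] w := by
      intro S
      rw [coordW_tmul, TensorProduct.tmul_smul, TensorProduct.smul_tmul']
    rw [Finset.sum_congr rfl fun S _ => h1 S, ← TensorProduct.sum_tmul]
    congr 1
    exact (B.sum_repr u).symm

theorem coordW_map {K : Type*} {U : Type*} [AddCommGroup U] [Module ℂ U]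
    (B : Basis K ℂ U) (T : U →ₗ[ℂ] U) (μ : K → ℂ) (hT : ∀ S, T (B S) = μ S • B S)
    (G : W →ₗ[ℂ] W) (S : K) (t : U ⊗[ℂ] W) :
    coordW B W S (TensorProduct.map T G t) = μ S • G (coordW B W S t) := by
  have h : coordW B W S ∘ₗ TensorProduct.map T G = (μ S • G) ∘ₗ coordW B W S := by
    apply TensorProduct.ext
    refine B.ext fun S' => ?_
    refine LinearMap.ext fun w => ?_
    change coordW B W S (TensorProduct.map T G (B S' ⊗ₜ[ℂ] w)) =
      μ S • G (coordW B W S (B S' ⊗ₜ[ℂ] w))
    rw [TensorProduct.map_tmul, coordW_tmul, coordW_tmul, hT, map_smul, map_smul]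
    by_cases hS : S' = S
    · subst hS
      rw [smul_eq_mul, mul_smul, smul_comm]
    · have h1 : B.coord S (B S') = 0 := by
        rw [Basis.coord_apply, Basis.repr_self, Finsupp.single_eq_of_ne (Ne.symm hS)]
      rw [h1]
      simp
  exact LinearMap.congr_fun h t

theorem coordW_pow {K : Type*} {U : Type*} [AddCommGroup U] [Module ℂ U]
    (B : Basis K ℂ U) (T : U →ₗ[ℂ] U) (μ : K → ℂ) (hT : ∀ S, T (B S) = μ S • B S)
    (G : W →ₗ[ℂ] W) (c : ℂ) (S : K) (s : ℕ) (t : U ⊗[ℂ] W) :
    coordW B W S (((TensorProduct.map T G - c • LinearMap.id : U ⊗[ℂ] W →ₗ[ℂ] U ⊗[ℂ] W) ^ s) t) =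
      ((μ S • G - c • LinearMap.id : W →ₗ[ℂ] W) ^ s) (coordW B W S t) := by
  induction s with
  | zero => simp
  | succ s ih =>
    rw [pow_succ', Module.End.mul_apply, pow_succ', Module.End.mul_apply, ← ih,
      LinearMap.sub_apply, LinearMap.sub_apply, map_sub, coordW_map B T μ hT, LinearMap.smul_apply,
      LinearMap.smul_apply, LinearMap.smul_apply, map_smul]
    rfl

end Pool.Agent.X317.Tate
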