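import Mathlib
import Pool.Agent.X317.Tate.Balanced
import Pool.Agent.X317.Tate.Roots
import Pool.Agent.X317.Tate.Wedge

/-!
Classes on the product of an abelian variety and any variety, modulo `ℓ`.
-/

set_option autoImplicit false
set_option linter.all false

open Module TensorProduct Polynomial Pool.Agent.X317.Iso Pool.Agent.X317.Pro

namespace Pool.Agent.X317.Tate

variable {V : Type} [AddCommGroup V] [Module ℂ V] {W : Type} [AddCommGroup W] [Module ℂ W]

theorem incl_tmul (k : ℕ) (u : Ext V k) (w : W) :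
    incl V W k (u ⊗ₜ[ℂ] w) = (u.1 : EA V) ⊗ₜ[ℂ] w :=
  rfl

/-- the eigenvalue -/
theorem root_of_pow (G : W →ₗ[ℂ] W) (h : ℤ[X]) (hG : aeval G h = 0) (c : ℂ) :
    ∀ (s : ℕ) (w : W), w ≠ 0 → ((G - c • LinearMap.id : W →ₗ[ℂ] W) ^ s) w = 0 →
      (h.map (Int.castRingHom ℂ)).eval c = 0 := by
  intro s
  induction s with
  | zero => intro w hw h0; exact absurd h0 hw
  | succ s ih =>
    intro w hw h0
    by_cases h1 : (G - c • LinearMap.id : W →ₗ[ℂ] W) w = 0
    · have h2 : G w = c • w := by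
        rw [LinearMap.sub_apply, sub_eq_zero] at h1
        exact h1
      have h3 : ∀ n : ℕ, (G ^ n) w = c ^ n • w := fun n =>
        Pool.Agent.W484.BB.pow_apply_eigen G w c h2 n
      have h4 : (aeval G h) w = ((h.map (Int.castRingHom ℂ)).eval c) • w := by
        rw [aeval_eq_sum_range, LinearMap.sum_apply, eval_map, eval₂_eq_sum_range,
          Finset.sum_smul]
        refine Finset.sum_congr rfl fun n _ => ?_
        rw [LinearMap.smul_apply, h3, mul_smul, Int.coe_castRingHom, Int.cast_smul_eq_zsmul]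
      rw [hG, LinearMap.zero_apply] at h4
      exact (smul_eq_zero.1 h4.symm).resolve_right hw
    · refine ih _ h1 ?_
      rw [pow_succ, Module.End.mul_apply] at h0
      exact h0

theorem map_eval_eq_zero {A : Type*} [CommRing A] (φ : integralClosure ℤ ℂ →+* A) (h : ℤ[X])
    (c : integralClosure ℤ ℂ) (hc : (h.map (Int.castRingHom ℂ)).eval (c : ℂ) = 0) :
    (h.map (Int.castRingHom A)).eval (φ c) = 0 := by
  have h1 : (h.map (Int.castRingHom (integralClosure ℤ ℂ))).eval c = 0 := by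
    have h2 := eval_map_ringHom (algebraMap (integralClosure ℤ ℂ) ℂ) c h
    have h3 : (algebraMap (integralClosure ℤ ℂ) ℂ)
        ((h.map (Int.castRingHom (integralClosure ℤ ℂ))).eval c) = 0 := by
      rw [← h2]
      exact hc
    exact (map_eq_zero_iff _ Subtype.val_injective).1 h3
  rw [eval_map_ringHom, h1, map_zero]

theorem not_integral (q : ℕ) (hq : 1 < q) (d : ℕ) (hd : 0 < d) (c : ℂ) (hc : IsIntegral ℤ c)
    (h : (q : ℂ) ^ d * c = 1) : False := by
  have hq0 : (q : ℂ) ≠ 0 := by exact_mod_cast (by omega : q ≠ 0)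
  have h1 : c = algebraMap ℚ ℂ (((q : ℚ) ^ d)⁻¹) := by
    rw [map_inv₀, map_pow, map_natCast]
    exact eq_inv_of_mul_eq_one_right h
  rw [h1, isIntegral_algebraMap_iff (algebraMap ℚ ℂ).injective] at hc
  obtain ⟨y, hy⟩ := IsIntegrallyClosed.isIntegral_iff.1 hc
  have hq0' : (q : ℚ) ≠ 0 := by exact_mod_cast (by omega : q ≠ 0)
  have h2 : (y : ℚ) * (q : ℚ) ^ d = 1 := by
    have h3 : (y : ℚ) = ((q : ℚ) ^ d)⁻¹ := by simpa using hy
    rw [h3, inv_mul_cancel₀ (pow_ne_zero _ hq0')]
  have h3 : y * (q : ℤ) ^ d = 1 := by exact_mod_cast h2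
  have h4 : IsUnit ((q : ℤ) ^ d) := IsUnit.of_mul_eq_one _ (by rw [mul_comm]; exact h3)
  rw [isUnit_pow_iff hd.ne', Int.isUnit_iff] at h4
  rcases h4 with h5 | h5 <;> omega

variable {R : Type} [Fintype R] [DecidableEq R]

/-- **The main theorem.** -/
theorem core {ℓ q : ℕ} [hl : Fact ℓ.Prime] (hq : 1 < q) (φ : integralClosure ℤ ℂ →+* FBar ℓ)
    (hqF : (q : FBar ℓ) = 1) (f : R → ℤ[X]) (g n N : R → ℕ) (x : R → FBar ℓ)
    (hx : ∀ r, orderOf (x r) = N r)
    (hN : ∀ r, N r ∣ ℓ ^ g r + 1) (hn : ∀ r, n r * (ℓ ^ g r - 1) < N r * (ℓ - 1))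
    (hcop : ∀ r r', r ≠ r' → Nat.Coprime (N r) (N r')) (M : ℕ) (hM : ∀ r, Nat.Coprime (N r) M)
    (α : ∀ r, Fin (2 * g r) → integralClosure ℤ ℂ)
    (hfα : ∀ r, (f r).map (Int.castRingHom ℂ) = ∏ j, (X - C (α r j : ℂ)))
    (hφα : ∀ r b, φ (α r b) = x r ^ ℓ ^ (b : ℕ))
    (hαα : ∀ r (b b' : Fin (2 * g r)), (b' : ℕ) = b + g r → (α r b : ℂ) * α r b' = q)
    (F : V →ₗ[ℂ] V) {m : ℕ} (b : Basis (Fin m) ℂ V) (μ : Fin m → ℂ)
    (hb : ∀ j, F (b j) = μ j • b j)
    (hμ : ∏ j, (X - C (μ j)) = ∏ r, ((f r).map (Int.castRingHom ℂ)) ^ n r)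
    (G : W →ₗ[ℂ] W) (h : ℤ[X]) (hh : h.Monic) (hG : aeval G h = 0)
    (hhM : ∀ y : FBar ℓ, (h.map (Int.castRingHom (FBar ℓ))).eval y = 0 → y ^ M = 1)
    (k i s : ℕ) (t : Ext V k ⊗[ℂ] W)
    (ht : ((TensorProduct.map (Ext.map k F) G - ((q : ℂ) ^ i) • LinearMap.id :
      Ext V k ⊗[ℂ] W →ₗ[ℂ] Ext V k ⊗[ℂ] W) ^ s) t = 0) :
    t = 0 ∨ ∃ a j, k = 2 * a ∧ i = a + j ∧ incl V W k t ∈ products F G q s a ((q : ℂ) ^ j) := by
  classical
  have hqC : (q : ℂ) ≠ 0 := by exact_mod_cast (by omega : q ≠ 0)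
  have hℓ := hl.out.two_le
  -- the labels
  let J := Σ r : R, Fin (2 * g r) × Fin (n r)
  let v : J → ℂ := fun z => (α z.1 z.2.1 : ℂ)
  have hroots : ∀ {A : Type} [Fintype A] (u : A → ℂ),
      (∏ j, (X - C (u j))).roots = Multiset.map u Finset.univ.val := by
    intro A _ u
    have h5 := roots_multiset_prod_X_sub_C (Multiset.map u Finset.univ.val)
    rw [Multiset.map_map] at h5
    exact h5
  have hprodJ : ∏ r, ((f r).map (Int.castRingHom ℂ)) ^ n r = ∏ z : J, (X - C (v z)) := by
    rw [Fintype.prod_sigma]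
    refine Finset.prod_congr rfl fun r _ => ?_
    rw [Fintype.prod_prod_type, hfα, ← Finset.prod_pow]
    refine Finset.prod_congr rfl fun j _ => ?_
    change _ = ∏ _y : Fin (n r), (X - C (α r j : ℂ))
    rw [Finset.prod_const, Finset.card_univ, Fintype.card_fin]
  obtain ⟨σ, hσ⟩ := exists_equiv_of_map μ v (by rw [← hroots, ← hroots, hμ, hprodJ])
  let lab : Fin m → Lab g := fun j => ⟨(σ j).1, (σ j).2.1⟩
  let A : Fin m → integralClosure ℤ ℂ := fun j => α (σ j).1 (σ j).2.1
  have hA : ∀ j, (A j : ℂ) = μ j := fun j => (hσ j).symm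
  have hAφ : ∀ j, φ (A j) = x (lab j).1 ^ ℓ ^ ((lab j).2 : ℕ) := fun j => hφα _ _
  have hμ0 : ∀ j, μ j ≠ 0 := by
    intro j h0
    have h1 := hA j
    rw [h0] at h1
    have h2 : A j = 0 := Subtype.ext h1
    have h3 := hAφ j
    rw [h2, map_zero] at h3
    have h4 : x (lab j).1 = 0 := by
      by_contra h5
      exact pow_ne_zero _ h5 h3.symm
    have h5 := hx (lab j).1
    obtain ⟨c, hc⟩ := hN (lab j).1
    have h6 : x (lab j).1 ^ (ℓ ^ g (lab j).1 + 1) = 1 := by
      rw [hc, pow_mul, ← hx, pow_orderOf_eq_one, one_pow]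
    rw [h4, zero_pow (Nat.succ_ne_zero _)] at h6
    exact zero_ne_one h6
  have hpair : ∀ j j', lab j' = tau (lab j) → μ j * μ j' = q := by
    intro j j' hjj
    have hgen : ∀ (z z' : Lab g), z' = tau z → (α z.1 z.2 : ℂ) * (α z'.1 z'.2 : ℂ) = q := by
      rintro ⟨r, c⟩ z' rfl
      by_cases hc : (c : ℕ) < g r
      · rw [tau_low r c hc]
        exact hαα r c _ rfl
      · rw [tau_high r c hc, mul_comm]
        exact hαα r _ c (by simp only; omega)
    rw [← hA j, ← hA j']
    exact hgen (lab j) (lab j') hjj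
  have hcount : ∀ (S : Finset (Fin m)) (z : Lab g),
      (S.filter (fun j => lab j = z)).card ≤ n z.1 := by
    intro S z
    rw [← Finset.card_range (n z.1)]
    refine Finset.card_le_card_of_injOn (fun j => ((σ j).2.2 : ℕ)) ?_ ?_
    · intro j hj
      have hj' := (Finset.mem_filter.1 (Finset.mem_coe.1 hj)).2
      rw [Finset.mem_coe, Finset.mem_range, ← hj']
      exact (σ j).2.2.2
    · intro j hj j' hj' he
      have h1 := (Finset.mem_filter.1 (Finset.mem_coe.1 hj)).2
      have h2 := (Finset.mem_filter.1 (Finset.mem_coe.1 hj')).2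
      have h3 : lab j = lab j' := h1.trans h2.symm
      apply σ.injective
      have h4 : ∀ u u' : J, (⟨u.1, u.2.1⟩ : Lab g) = ⟨u'.1, u'.2.1⟩ →
          (u.2.2 : ℕ) = u'.2.2 → u = u' := by
        rintro ⟨r, c, d⟩ ⟨r', c', d'⟩ h5 h6
        simp only [Sigma.mk.injEq] at h5
        obtain ⟨h7, h8⟩ := h5
        subst h7
        have h9 := eq_of_heq h8
        subst h9
        have h10 : d = d' := Fin.ext h6
        rw [h10]
      exact h4 _ _ h3 he
  -- the basis of the exterior power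
  let B : Basis (Set.powersetCard (Fin m) k) ℂ (Ext V k) := b.exteriorPower k
  have hBfin : Fintype (Set.powersetCard (Fin m) k) := Fintype.ofFinite _
  let lst : Set.powersetCard (Fin m) k → List (Fin m) := fun S =>
    List.ofFn (Set.powersetCard.ofFinEmbEquiv.symm S)
  have hlen : ∀ S, (lst S).length = k := fun S => List.length_ofFn
  have hnodup : ∀ S, (lst S).Nodup := fun S =>
    List.nodup_ofFn.2 (Set.powersetCard.ofFinEmbEquiv.symm S).injective
  have hBcoe : ∀ S, ((B S : Ext V k).1 : EA V) =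
      (show EA V from ((lst S).map (fun j => ExteriorAlgebra.ι ℂ (b j))).prod) := by
    intro S
    have h1 : ((b.exteriorPower k S : ⋀[ℂ]^k V) : ExteriorAlgebra ℂ V) =
        ((lst S).map (fun j => ExteriorAlgebra.ι ℂ (b j))).prod := by
      rw [exteriorPower.coe_basis]
      change ExteriorAlgebra.ιMulti ℂ k _ = _
      rw [ExteriorAlgebra.ιMulti_apply, List.map_ofFn]
      rfl
    exact h1
  have hBmap : ∀ S, Ext.map k F (B S) = ((lst S).map μ).prod • B S := by
    intro S
    apply Subtype.ext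
    have h1 := Pool.Agent.H194R3.Weil.map_prod_list (K := ℂ) F μ 1
      ((lst S).map (fun j => (b j, j))) (by
        intro e he
        rw [List.mem_map] at he
        obtain ⟨j, _, rfl⟩ := he
        exact hb j)
    rw [pow_one, pow_one, List.map_map, List.map_map] at h1
    have h2 : (((Ext.map k F (B S) : Ext V k)).1 : EA V) =
        (show EA V from ExteriorAlgebra.map F (show ExteriorAlgebra ℂ V from (B S).1)) :=
      Pool.Agent.W484.BB.coe_map F k (B S)
    rw [h2, hBcoe]
    change ExteriorAlgebra.map F ((lst S).map (fun j => ExteriorAlgebra.ι ℂ (b j))).prod =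
      ((lst S).map μ).prod • (show ExteriorAlgebra ℂ V from (B S).1)
    rw [hBcoe]
    exact h1
  -- the coordinates
  have hcoord : ∀ S, ((((lst S).map μ).prod • G - ((q : ℂ) ^ i) • LinearMap.id : W →ₗ[ℂ] W) ^ s)
      (coordW B W S t) = 0 := by
    intro S
    rw [← coordW_pow B (Ext.map k F) (fun S => ((lst S).map μ).prod) hBmap, ht, map_zero]
  have key : ∀ S, coordW B W S t ≠ 0 → ∃ a j, k = 2 * a ∧ i = a + j ∧
      ((B S).1 : EA V) ∈ divSpan F q a ∧
      ((G - ((q : ℂ) ^ j) • LinearMap.id : W →ₗ[ℂ] W) ^ s) (coordW B W S t) = 0 := by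
    intro S hS
    set P : ℂ := ((lst S).map μ).prod with hP
    have hP0 : P ≠ 0 := by
      rw [hP]
      refine List.prod_ne_zero ?_
      intro h0
      rw [List.mem_map] at h0
      obtain ⟨j, _, hj⟩ := h0
      exact hμ0 j hj
    set c : ℂ := P⁻¹ * (q : ℂ) ^ i with hc
    have hfac : (P • G - ((q : ℂ) ^ i) • LinearMap.id : W →ₗ[ℂ] W) =
        P • (G - c • LinearMap.id) := by
      rw [smul_sub, smul_smul, hc, mul_inv_cancel_left₀ hP0]
    have h1 : ((G - c • LinearMap.id : W →ₗ[ℂ] W) ^ s) (coordW B W S t) = 0 := by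
      have h2 := hcoord S
      rw [← hP, hfac, _root_.smul_pow, LinearMap.smul_apply] at h2
      exact (smul_eq_zero.1 h2).resolve_left (pow_ne_zero _ hP0)
    have hroot := root_of_pow G h hG c s _ hS h1
    have hcint : IsIntegral ℤ c := by
      refine ⟨h, hh, ?_⟩
      rw [eval_map] at hroot
      exact hroot
    let c' : integralClosure ℤ ℂ := ⟨c, hcint⟩
    have hφc : φ c' ^ M = 1 := hhM _ (map_eval_eq_zero φ h c' hroot)
    -- the reduction
    let S' : Finset (Fin m) := (lst S).toFinset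
    have hrel : (∏ j ∈ S', A j) * c' = (q : integralClosure ℤ ℂ) ^ i := by
      apply Subtype.ext
      have h2 : ∏ j ∈ S', (A j : ℂ) = P := by
        rw [hP, ← List.prod_toFinset μ (hnodup S)]
        exact Finset.prod_congr rfl fun j _ => hA j
      push_cast
      rw [h2]
      change P * c = _
      rw [hc, mul_inv_cancel_left₀ hP0]
    have hrelφ : (∏ j ∈ S', x (lab j).1 ^ ℓ ^ ((lab j).2 : ℕ)) * φ c' = 1 := by
      have h2 := congrArg φ hrel
      rw [map_mul, map_prod, map_pow, map_natCast, hqF, one_pow] at h2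
      rw [← h2]
      congr 1
      exact Finset.prod_congr rfl fun j _ => (hAφ j).symm
    have hbal : ∀ z, (lst S).countP (fun j => lab j = z) =
        (lst S).countP (fun j => lab j = tau z) := by
      intro z
      have h2 := balanced hℓ g n N x hx hN hn hcop M hM (φ c') hφc S' lab (hcount S') hrelφ z
      have h3 : ∀ z, (S'.filter (fun j => lab j = z)).card =
          (lst S).countP (fun j => lab j = z) := by
        intro z
        rw [List.countP_eq_length_filter, ← List.toFinset_card_of_nodup ((hnodup S).filter _),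
          List.toFinset_filter]
        congr 1
        refine Finset.filter_congr fun j _ => ?_
        simp
      rw [h3, h3] at h2
      exact h2
    obtain ⟨a, hka, hPa, hmem⟩ := wedge F (fun j => b j) μ hb lab tau tau_tau tau_ne (q : ℂ)
      hpair k (lst S) (hlen S) hbal
    rw [← hP] at hPa
    have hia : a ≤ i := by
      by_contra hlt
      push Not at hlt
      refine not_integral q hq (a - i) (by omega) c hcint ?_
      rw [hc, hPa, ← mul_assoc, mul_comm ((q : ℂ) ^ (a - i)), mul_assoc, ← pow_add]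
      rw [show a - i + i = a by omega, inv_mul_cancel₀ (pow_ne_zero _ hqC)]
    refine ⟨a, i - a, hka, by omega, ?_, ?_⟩
    · rw [hBcoe]
      exact hmem
    · have h2 : c = (q : ℂ) ^ (i - a) := by
        rw [hc, hPa]
        conv_lhs => rw [show i = a + (i - a) by omega, pow_add,
          inv_mul_cancel_left₀ (pow_ne_zero _ hqC)]
      rw [← h2]
      exact h1
  by_cases ht0 : t = 0
  · exact Or.inl ht0
  right
  have hsum := sum_coordW B t
  obtain ⟨S₀, hS₀⟩ : ∃ S, coordW B W S t ≠ 0 := by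
    by_contra hcon
    push Not at hcon
    apply ht0
    rw [hsum]
    exact Finset.sum_eq_zero fun S _ => by rw [hcon S, TensorProduct.tmul_zero]
  obtain ⟨a, j, hka, hij, -, -⟩ := key S₀ hS₀
  refine ⟨a, j, hka, hij, ?_⟩
  rw [hsum, map_sum]
  refine Submodule.sum_mem _ fun S _ => ?_
  by_cases hS : coordW B W S t = 0
  · rw [hS, TensorProduct.tmul_zero, map_zero]
    exact Submodule.zero_mem _
  · obtain ⟨a', j', hka', hij', h1, h2⟩ := key S hS
    have h3 : a' = a := by omega
    have h4 : j' = j := by omega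
    subst h3 h4
    have h5 : incl V W k (B S ⊗ₜ[ℂ] coordW B W S t) = ((B S).1 : EA V) ⊗ₜ[ℂ] coordW B W S t :=
      incl_tmul k (B S) (coordW B W S t)
    rw [h5]
    exact tmul_mem_products F G (q : ℂ) s a' _ _ h2 _ h1

end Pool.Agent.X317.Tate
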